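import Pool.Agent.H5.TT.Stm

set_option autoImplicit false
open H5.TT Filter Topology

namespace H12.TT

theorem t_CAL : S_CAL := by
  intro E l hl hconv hE hE2
  obtain ⟨r0, hr0⟩ : ∃ r0 : ℝ, r0 = l ^ (3 / 2 : ℝ) := ⟨_, rfl⟩
  have hr0pos : 0 < r0 := by rw [hr0]; exact Real.rpow_pos_of_pos hl _
  have hφ0 : r0 ^ (2 / 3 : ℝ) = l := by
    rw [hr0, ← Real.rpow_mul hl.le]
    norm_num
  have ha : r0 ^ ((2 / 3 : ℝ) - 1) * r0 ^ ((2 / 3 : ℝ) - 1) = l⁻¹ := by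
    rw [← Real.rpow_add hr0pos, hr0, ← Real.rpow_mul hl.le, ← Real.rpow_neg_one]
    norm_num
  have hb : r0 ^ ((2 / 3 : ℝ) - 1 - 1) = (l ^ 2)⁻¹ := by
    rw [hr0, ← Real.rpow_mul hl.le, ← Real.rpow_natCast, ← Real.rpow_neg hl.le]
    norm_num
  have hcont : ContinuousAt (fun r : ℝ => r ^ (2 / 3 : ℝ)) r0 :=
    Real.continuousAt_rpow_const _ _ (Or.inl hr0pos.ne')
  have hev1 : ∀ᶠ r in 𝓝 r0, DifferentiableAt ℝ E (r ^ (2 / 3 : ℝ)) := by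
    have : Tendsto (fun r : ℝ => r ^ (2 / 3 : ℝ)) (𝓝 r0) (𝓝 l) := by
      have := hcont.tendsto
      rwa [hφ0] at this
    exact this.eventually hE
  obtain ⟨ε, hε, hball⟩ := Metric.eventually_nhds_iff_ball.mp (hev1.and (lt_mem_nhds hr0pos))
  let G : ℝ → ℝ := fun r : ℝ => r ^ (2 / 3 : ℝ) * E (r ^ (2 / 3 : ℝ))
  let g : ℝ → ℝ := fun r : ℝ => (2 / 3 * r ^ ((2 / 3 : ℝ) - 1)) * E (r ^ (2 / 3 : ℝ)) +
    r ^ (2 / 3 : ℝ) * (deriv E (r ^ (2 / 3 : ℝ)) * (2 / 3 * r ^ ((2 / 3 : ℝ) - 1)))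
  have hφ : ∀ r : ℝ, 0 < r → HasDerivAt (fun r : ℝ => r ^ (2 / 3 : ℝ)) (2 / 3 * r ^ ((2 / 3 : ℝ) - 1)) r :=
    fun r hr => Real.hasDerivAt_rpow_const (Or.inl hr.ne')
  have hG : ∀ r ∈ Metric.ball r0 ε, HasDerivAt G (g r) r := by
    intro r hr
    obtain ⟨h1, h2⟩ := hball r hr
    have h3 : HasDerivAt (fun r : ℝ => E (r ^ (2 / 3 : ℝ)))
        (deriv E (r ^ (2 / 3 : ℝ)) * (2 / 3 * r ^ ((2 / 3 : ℝ) - 1))) r :=
      HasDerivAt.comp r h1.hasDerivAt (hφ r h2)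
    exact (hφ r h2).mul h3
  have hsub : Metric.ball r0 ε ⊆ Set.Ioi 0 := fun r hr => (hball r hr).2
  have hcb : ConvexOn ℝ (Metric.ball r0 ε) G := hconv.subset hsub (convex_ball _ _)
  have hmono : MonotoneOn (deriv G) (Metric.ball r0 ε) :=
    hcb.monotoneOn_deriv (fun r hr => (hG r hr).differentiableAt)
  have hmono' : MonotoneOn g (Metric.ball r0 ε) := by
    intro x hx y hy hxy
    have := hmono hx hy hxy
    rwa [(hG x hx).deriv, (hG y hy).deriv] at this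
  have hd1 : HasDerivAt (fun r : ℝ => 2 / 3 * r ^ ((2 / 3 : ℝ) - 1))
      (2 / 3 * (((2 / 3 : ℝ) - 1) * r0 ^ ((2 / 3 : ℝ) - 1 - 1))) r0 :=
    (Real.hasDerivAt_rpow_const (Or.inl hr0pos.ne')).const_mul _
  have hEl : HasDerivAt E (deriv E l) (r0 ^ (2 / 3 : ℝ)) := by
    rw [hφ0]
    exact hE.self_of_nhds.hasDerivAt
  have hE'l : HasDerivAt (deriv E) (deriv (deriv E) l) (r0 ^ (2 / 3 : ℝ)) := by
    rw [hφ0]
    exact hE2.hasDerivAt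
  have hd2 : HasDerivAt (fun r : ℝ => E (r ^ (2 / 3 : ℝ)))
      (deriv E l * (2 / 3 * r0 ^ ((2 / 3 : ℝ) - 1))) r0 := HasDerivAt.comp r0 hEl (hφ r0 hr0pos)
  have hd3 : HasDerivAt (fun r : ℝ => deriv E (r ^ (2 / 3 : ℝ)))
      (deriv (deriv E) l * (2 / 3 * r0 ^ ((2 / 3 : ℝ) - 1))) r0 := by
    have h := HasDerivAt.comp (h₂ := deriv E) (h := fun r : ℝ => r ^ (2 / 3 : ℝ)) r0 hE'l (hφ r0 hr0pos)
    exact h
  have hg := (hd1.mul hd2).add ((hφ r0 hr0pos).mul (hd3.mul hd1))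
  have hacc : AccPt r0 (𝓟 (Metric.ball r0 ε)) := by
    rw [accPt_iff_nhds]
    intro U hU
    have h1 : U ∩ Metric.ball r0 ε ∈ 𝓝 r0 := inter_mem hU (Metric.ball_mem_nhds _ hε)
    obtain ⟨δ, hδ, hδb⟩ := Metric.mem_nhds_iff.mp h1
    refine ⟨r0 + δ / 2, hδb ?_, by intro h; linarith⟩
    rw [Metric.mem_ball, Real.dist_eq]
    have : r0 + δ / 2 - r0 = δ / 2 := by ring
    rw [this, abs_of_pos (by linarith)]
    linarith
  have hnn := hg.hasDerivWithinAt.nonneg_of_monotoneOn hacc hmono'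
  simp only [Pi.mul_apply, hφ0] at hnn
  set a := r0 ^ ((2 / 3 : ℝ) - 1) with haa
  rw [hb] at hnn
  have key : l ^ 2 * deriv (deriv E) l + 3 / 2 * l * deriv E l - 1 / 2 * E l =
      9 / 4 * l ^ 2 * (2 / 3 * (((2 / 3 : ℝ) - 1) * (l ^ 2)⁻¹) * E l +
        2 / 3 * a * (deriv E l * (2 / 3 * a)) +
        (2 / 3 * a * (deriv E l * (2 / 3 * a)) +
        l * (deriv (deriv E) l * (2 / 3 * a) * (2 / 3 * a) +
          deriv E l * (2 / 3 * (((2 / 3 : ℝ) - 1) * (l ^ 2)⁻¹))))) := by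
    have e1 : 9 / 4 * l ^ 2 * (2 / 3 * (((2 / 3 : ℝ) - 1) * (l ^ 2)⁻¹) * E l +
        2 / 3 * a * (deriv E l * (2 / 3 * a)) +
        (2 / 3 * a * (deriv E l * (2 / 3 * a)) +
        l * (deriv (deriv E) l * (2 / 3 * a) * (2 / 3 * a) +
          deriv E l * (2 / 3 * (((2 / 3 : ℝ) - 1) * (l ^ 2)⁻¹))))) =
        -(1 / 2) * (l ^ 2 * (l ^ 2)⁻¹) * E l + 2 * l ^ 2 * (a * a) * deriv E l +
        l ^ 3 * (a * a) * deriv (deriv E) l - 1 / 2 * l * (l ^ 2 * (l ^ 2)⁻¹) * deriv E l := by ring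
    rw [e1, ha, mul_inv_cancel₀ (by positivity)]
    field_simp
    ring
  rw [key]
  have : 0 ≤ 9 / 4 * l ^ 2 := by positivity
  exact mul_nonneg this hnn

end H12.TT
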